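import Pool.Agent.KS6_84.Roof.Geom

/-!
# MP_c86293_an: `P[φ](ψ) = P(ψ, g_φ)` fails on every domain of `ℂⁿ`, `n ≥ 2`, with touching
interior and exterior balls, in particular on every bounded domain with the interior ball condition
-/

set_option autoImplicit false

open Metric Set Filter Topology

namespace Pool.Agent.Results.MP_c86293_an.SmoothDomains

open Q72.Psh Q72.Res KS6_84.Roof

/-- Let `n ≥ 2` and let `D ⊆ ℂⁿ` be open.  Suppose that there are a ball inside `D` and a closed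
ball containing `D` whose boundary spheres have a common point, or that `D` is bounded, nonempty
and satisfies the interior ball condition.  Then there are negative pluriharmonic functions
`φ = Re Φ`, `ψ = Re Ψ` on `D` such that `ψ ≤ g_φ`, `P(ψ, g_φ) = ψ` on `D`, and
`P[φ](ψ)(z) < P(ψ, g_φ)(z)` for some `z ∈ D`. -/
theorem result (n : ℕ) (hn : 2 ≤ n) (D : Set (Cn n)) (hD : IsOpen D)
    (h : Touching D ∨ (D.Nonempty ∧ Bornology.IsBounded D ∧ InteriorBall D)) :
    ∃ Φ Ψ : Cn n → ℂ, DifferentiableOn ℂ Φ D ∧ DifferentiableOn ℂ Ψ D ∧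
      ∃ φ ∈ PSHneg D, ∃ ψ ∈ PSHneg D,
        (∀ z, φ z = (((Φ z).re : ℝ) : EReal)) ∧ (∀ z, ψ z = (((Ψ z).re : ℝ) : EReal)) ∧
        (∀ z ∈ D, ψ z ≤ res D φ z) ∧ (∀ z ∈ D, roof D ψ (res D φ) z = ψ z) ∧
        ∃ z ∈ D, asymRoof D φ ψ z < roof D ψ (res D φ) z := by
  rcases h with h | ⟨h1, h2, h3⟩
  · exact main hn hD h
  · exact main hn hD (touching_of_interiorBall hn hD h1 h2 h3)

end Pool.Agent.Results.MP_c86293_an.SmoothDomains
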